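import Pool.Agent.Helper64.CT.Stmts

set_option autoImplicit false

namespace Pool.Agent.Helper64.CT

theorem st_ATT : ST_ATT := by
  intro V G hG c x hx
  by_contra hne
  have key : ∀ w, Relation.ReflTransGen G.Adj x w → Comp G c x w := by
    intro w hw
    induction hw with
    | refl => exact Comp.refl hx
    | @tail b d _ hbd ih =>
      have hb := ih.right
      refine ih.step ⟨?_, ?_⟩ hbd
      · rintro rfl
        exact hb.2 hbd.symm
      · intro hcd
        exact hne ⟨d, hcd, b, ih, hbd.symm⟩
  have h := key c ((SimpleGraph.reachable_iff_reflTransGen _ _).1 (hG x c))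
  exact h.right.1 rfl

end Pool.Agent.Helper64.CT
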