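import Pool.Agent.Helper64.CT.Stmts

set_option autoImplicit false

namespace Pool.Agent.Helper64.CT

theorem ex0_far {V : Type} {G : SimpleGraph V} {S : Set V} {x w : S}
    (h : w.1 ∈ Far G x.1) : w ∈ Far (G.induce S) x :=
  ⟨fun e => h.1 (congrArg Subtype.val e), fun e => h.2 (by simpa using e)⟩

theorem st_EX0 : ST_EX0 := by
  intro V G S hS x y z h
  have key := Comp.ind h (fun w => ∃ hw : w ∈ S, Comp (G.induce S) x y ⟨w, hw⟩)
    ⟨y.2, Comp.refl (ex0_far h.left)⟩ (by
      rintro u w _ ⟨hu, hc⟩ hw ha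
      have hwS : w ∈ S := by
        by_contra hn
        exact hS u hu w hn ha
      exact ⟨hwS, hc.step (ex0_far hw) (by simpa using ha)⟩)
  obtain ⟨_, hk⟩ := key
  exact hk

end Pool.Agent.Helper64.CT
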