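import Pool.Agent.Helper64.CT.Stmts

set_option autoImplicit false

namespace Pool.Agent.Helper64.CT

open Pool.Agent.Helper64.HG (Ovl Model Circ IC HellyCircle)

theorem gci_MOn {V : Type} {G : SimpleGraph V} {l r : V → ℝ} (h : Model G l r) :
    MOn G Set.univ l r where
  lt := fun v _ => h.lt v
  injl := fun _ _ _ _ e => h.injl e
  injr := fun _ _ _ _ e => h.injr e
  ne := fun u _ v _ => h.ne u v
  adj := fun u _ v _ => h.adj u v

theorem st_GCI (h1 : ST_SD2) (h2 : ST_GEX) : ST_GCI := by
  intro V G hC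
  obtain ⟨l, r, hM⟩ := hC
  rintro ⟨v, a, b, c, hva, hvb, hvc, e1, e2, e3⟩
  have hac : a ≠ c := e1.left.1
  have hbc : b ≠ c := e1.right.1
  have hab : a ≠ b := fun e => e2.left.1 e.symm
  have nac : ¬ G.Adj a c := e2.right.2
  have nbc : ¬ G.Adj b c := e3.right.2
  have nab : ¬ G.Adj a b := e2.left.2
  have h := h2 V G Set.univ l r (gci_MOn hM) v trivial a trivial b trivial c trivial hva hvb hvc
    hab hac hbc nab nac nbc
  have g1 := h1 V G l r hM c a b e1
  have g2 := h1 V G l r hM a b c e2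
  have g3 := h1 V G l r hM b a c e3
  rcases h with h | h | h
  · exact h.1 g1
  · exact h.2.1 g2
  · exact h.2.2 g3

end Pool.Agent.Helper64.CT
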