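import Pool.Agent.Helper64.CT.Stmts

set_option autoImplicit false

namespace Pool.Agent.Helper64.CT

theorem st_L3C (h1 : ST_ALS) : ST_L3C := by
  intro V G hTF x a b c hxa hxb hxc hab hac hbc hn h2 h3
  have hca : ¬ G.Adj c a := hTF c x a hxc.symm hxa
  have hcb : ¬ G.Adj c b := hTF c x b hxc.symm hxb
  have fa : a ∈ Far G c := ⟨hac, hca⟩
  have fb : b ∈ Far G c := ⟨hbc, hcb⟩
  refine ⟨hn, ⟨a, Comp.refl fa, ⟨x, ⟨hxc.symm, b, Comp.refl fb, hxb⟩, hxa.symm⟩, ?_⟩,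
    ⟨b, Comp.refl fb, ⟨x, ⟨hxc.symm, a, Comp.refl fa, hxa⟩, hxb.symm⟩, ?_⟩⟩
  · by_contra hall
    push Not at hall
    have hA : Alpha G a c b := ⟨fb, hn, hall⟩
    exact (h1 V G a c b fa hA).1.2.1 h2.symm
  · by_contra hall
    push Not at hall
    have hA : Alpha G b c a := ⟨fa, fun h => hn h.symm, hall⟩
    exact (h1 V G b c a fb hA).1.2.1 h3.symm

end Pool.Agent.Helper64.CT
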